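import Mathlib
import Pool.Agent.Helper206.Rat.Geometry

/-!
# Rational curves for arbitrary almost complex structures

On the symplectic manifold `X = P¹ × P¹`, with the sum of the area forms, there is an almost
complex structure `J`, homotopic to the product complex structure, such that no rational
`J`-holomorphic curve meets a certain nonempty open subset `U`. But `X` is rationally connected
and uniruled. So the answers to both questions of the problem are negative.
-/

open scoped Manifold ContDiff Topology
open Metric Set Bundle
open Pool.Agent.Helper206.Cover (R3 P1 cross EndoField)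
open Pool.Agent.Helper206.Rat

noncomputable section

namespace Pool.Agent.Results.MP_039cf2_gt.NoRationalCurves

section Statement

variable
  {E' : Type*} [NormedAddCommGroup E'] [NormedSpace ℝ E'] {H' : Type*} [TopologicalSpace H']
  {I' : ModelWithCorners ℝ E' H'} {S : Type*} [TopologicalSpace S] [ChartedSpace H' S]

/-- `j` is the rotation by the angle `π / 2` of the tangent planes of the sphere `ι : S → R3`
about the outward normal: `dι (j w) = ι z × dι w` for `w` tangent to `S` at `z`. For the unit
sphere, with `ι` the inclusion in `R3`, this is the complex structure of the Riemann sphere. -/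
def IsRotation (ι : S → R3) (j : EndoField I' S) : Prop :=
  ∀ (z : S) (w : TangentSpace I' z), mvfderiv I' ι z (j z w) = cross (ι z) (mvfderiv I' ι z w)

/-- There are a compact connected symplectic manifold `(X, Ω)` without boundary, of dimension `4`,
an almost complex structure `J` on `X` and a nonempty open subset `U` of `X` such that
`(X, Ω)` is uniruled and rationally connected, `J` is homotopic to an `Ω`-compatible almost
complex structure `J₀`, for which any two points of `X` lie on a common connected rational
curve, but no point of `U` lies on a connected rational `J`-holomorphic curve. In particular no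
two points `x ∈ U` and `y ∈ X` lie on a common connected rational `J`-holomorphic curve. -/
def HasCounterexample (j : EndoField I' S) : Prop :=
    ∃ (E : Type) (_ : NormedAddCommGroup E) (_ : NormedSpace ℝ E) (_ : FiniteDimensional ℝ E)
      (H : Type) (_ : TopologicalSpace H) (I : ModelWithCorners ℝ E H) (_ : I.Boundaryless)
      (X : Type) (_ : TopologicalSpace X) (_ : ChartedSpace H X) (_ : IsManifold I ∞ X)
      (_ : CompactSpace X) (_ : T2Space X) (_ : SecondCountableTopology X) (_ : ConnectedSpace X)
      (Ω : SymplecticForm I X) (J₀ J : AlmostComplex I X) (U : Set X),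
      Module.finrank ℝ E = 4 ∧
      IsUniruled j Ω ∧ IsRationallyConnected j Ω ∧
      IsCompatible Ω J₀ ∧ AreHomotopic J₀ J ∧
      (∀ x y : X, ∃ C : RationalCurve j J₀, x ∈ C.image ∧ y ∈ C.image) ∧
      IsOpen U ∧ U.Nonempty ∧
      (∀ x ∈ U, ¬ ∃ C : RationalCurve j J, x ∈ C.image) ∧
      (∀ x ∈ U, ∀ y : X, ¬ ∃ C : RationalCurve j J, x ∈ C.image ∧ y ∈ C.image)

end Statement

theorem connectedSpace_P1 : ConnectedSpace P1 := by
  apply isConnected_iff_connectedSpace.1
  apply isConnected_sphere
  · rw [← Module.finrank_eq_rank, finrank_euclideanSpace_fin]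
    norm_num
  · norm_num

/-- Both questions have a negative answer. Here `P¹` is the unit sphere `P1` of `R3`, with the
smooth structure of Mathlib and the complex structure `j w = z × w`. -/
theorem result :
    ∃ j : EndoField (𝓡 2) P1, IsRotation (fun z : P1 => (z : R3)) j ∧ HasCounterexample j := by
  have := connectedSpace_P1
  have : SecondCountableTopology (ModelProd (EuclideanSpace ℝ (Fin 2)) (EuclideanSpace ℝ (Fin 2))) :=
    inferInstanceAs (SecondCountableTopology (EuclideanSpace ℝ (Fin 2) × EuclideanSpace ℝ (Fin 2)))
  refine ⟨Pool.Agent.Helper206.Cover.jP1, Pool.Agent.Helper206.Cover.dInc_jP1, E4, inferInstance,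
    inferInstance, inferInstance,
    ModelProd (EuclideanSpace ℝ (Fin 2)) (EuclideanSpace ℝ (Fin 2)), inferInstance, I4,
    inferInstance, X4, inferInstance, inferInstance, inferInstance,
    inferInstance, inferInstance, ?_, inferInstance, Om4, K4 0, K4 1, U4, ?_,
    ⟨K4 0, isCompatible_K4, fun x => ?_⟩, ⟨K4 0, isCompatible_K4, exists_rationalCurve⟩,
    isCompatible_K4, areHomotopic_K4, exists_rationalCurve, isOpen_U4, nonempty_U4, ?_, ?_⟩
  · exact ChartedSpace.secondCountable_of_sigmaCompact
      (ModelProd (EuclideanSpace ℝ (Fin 2)) (EuclideanSpace ℝ (Fin 2))) X4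
  · simp [Module.finrank_prod]
  · obtain ⟨C, hC, -⟩ := exists_rationalCurve x x
    exact ⟨C, hC⟩
  · rintro x hx ⟨C, hC⟩
    exact not_mem_U4 C x hC hx
  · rintro x hx y ⟨C, hC, -⟩
    exact not_mem_U4 C x hC hx

end Pool.Agent.Results.MP_039cf2_gt.NoRationalCurves
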